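import Pool.Agent.Q216.SD.Main

/-!
# `STAR_p` is not in `NP` (and not decidable) for all but countably many real `p > 1`
-/

set_option autoImplicit false

namespace Pool.Agent.Results.MP_77e9aa_lc.NotInNP

open Pool.Agent.NPC Pool.Agent.Q216.SD

/-- `STAR_p` is the problem of deciding whether the star dichromatic number of a digraph is at most
`p`.
(1) For different real numbers `p, q > 1` the problems are different.
(2) For all but countably many `p > 1`, `STAR_p` is not decidable by any algorithm.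
(3) For all but countably many `p > 1`, `STAR_p` is not in `NP`.
(4) So the negated form of Q1 holds, and the exceptional `p` are dense: between any two real
numbers `1 ≤ a < b` there is a non-integer `p` such that `STAR_p` is not in `NP`, so it is not
`NP`-complete. -/
theorem result :
    (∀ p q : ℝ, 1 < p → p < q → ∃ M : List (List Bool), ¬ STAR p M ∧ STAR q M) ∧
    {p : ℝ | 1 < p ∧ ComputablePred fun x : List Bool => x ∈ lang (STAR p)}.Countable ∧
    {p : ℝ | 1 < p ∧ InNPP (STAR p)}.Countable ∧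
    (∀ a b : ℝ, 1 ≤ a → a < b → ∃ p : ℝ, a < p ∧ p < b ∧ (∀ n : ℤ, p ≠ n) ∧
      ¬ InNPP (STAR p) ∧ ¬ (InNPP (STAR p) ∧ NPHardP (STAR p))) := by
  have h3 : {p : ℝ | 1 < p ∧ InNPP (STAR p)}.Countable := countable_of _ countable_NP
  refine ⟨fun p q => star_injOn, countable_of _ countable_decidable, h3, ?_⟩
  intro a b ha hab
  have h4 : ({p : ℝ | 1 < p ∧ InNPP (STAR p)} ∪ Set.range (fun n : ℤ => (n : ℝ))).Countable :=
    h3.union (Set.countable_range _)
  have h5 : ¬ (Set.Ioo a b).Countable := fun h => by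
    have := h.measure_zero MeasureTheory.volume
    rw [Real.volume_Ioo] at this
    simp at this
    linarith
  have h6 : ¬ Set.Ioo a b ⊆ {p : ℝ | 1 < p ∧ InNPP (STAR p)} ∪ Set.range (fun n : ℤ => (n : ℝ)) :=
    fun h => h5 (h4.mono h)
  obtain ⟨p, hp, hp'⟩ := Set.not_subset.1 h6
  rw [Set.mem_union, not_or] at hp'
  have h7 : ¬ InNPP (STAR p) := fun h => hp'.1 ⟨lt_of_le_of_lt ha hp.1, h⟩
  exact ⟨p, hp.1, hp.2, fun n hn => hp'.2 ⟨n, hn.symm⟩, h7, fun h => h7 h.1⟩

end Pool.Agent.Results.MP_77e9aa_lc.NotInNP
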